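import Mathlib

open Finset

namespace Pool.Agent.Results.MP_acd90d_co.NoPerfectBasis

section
variable {G : Type*} [AddCommGroup G] {κ : Type*}

/-- sum of the values `b` over a multiset -/
def sg (b : κ → G) (R : Multiset κ) : G := (R.map b).sum

lemma sg_cons (b : κ → G) (x : κ) (R : Multiset κ) : sg b (x ::ₘ R) = b x + sg b R := by
  simp [sg]

lemma sg_add (b : κ → G) (R R' : Multiset κ) : sg b (R + R') = sg b R + sg b R' := by
  simp [sg]

/-- All sums of `k + 2` elements distinct: then all the difference values are distinct. -/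
lemma psi_injective {b : κ → G} {k : ℕ}
    (finj : ∀ R R' : Multiset κ, R.card = k + 2 → R'.card = k + 2 → sg b R = sg b R' → R = R')
    (o : κ) :
    Function.Injective (Sum.elim
      (fun x : (Σ c : κ, Sym {x : κ // x ≠ c} (k+1)) =>
        sg b ((x.2 : Multiset {y : κ // y ≠ x.1}).map Subtype.val) - b x.1)
      (fun Q : Sym κ k => sg b (Q : Multiset κ))) := by
  have hnot : ∀ (c : κ) (P : Sym {x : κ // x ≠ c} (k+1)),
      c ∉ (P : Multiset {y : κ // y ≠ c}).map Subtype.val := by
    intro c P h
    obtain ⟨y, -, hy⟩ := Multiset.mem_map.mp h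
    exact y.2 hy
  have hcard : ∀ (c : κ) (P : Sym {x : κ // x ≠ c} (k+1)),
      ((P : Multiset {y : κ // y ≠ c}).map Subtype.val).card = k + 1 := by
    intro c P
    rw [Multiset.card_map]; exact P.2
  have hmix : ∀ (c : κ) (P : Sym {x : κ // x ≠ c} (k+1)) (Q : Sym κ k),
      sg b ((P : Multiset {y : κ // y ≠ c}).map Subtype.val) - b c ≠ sg b (Q : Multiset κ) := by
    intro c P Q h
    have h1 := finj (o ::ₘ (P : Multiset {y : κ // y ≠ c}).map Subtype.val)
      (o ::ₘ c ::ₘ (Q : Multiset κ)) (by rw [Multiset.card_cons, hcard])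
      (by rw [Multiset.card_cons, Multiset.card_cons, show (Q : Multiset κ).card = k from Q.2])
      (by rw [sg_cons, sg_cons, sg_cons, ← h]; abel)
    rw [Multiset.cons_inj_right] at h1
    apply hnot c P
    rw [h1]
    exact Multiset.mem_cons_self _ _
  rintro (⟨c, P⟩ | Q) (⟨c', P'⟩ | Q') h
  · simp only [Sum.elim_inl] at h
    have h1 := finj (c' ::ₘ (P : Multiset {y : κ // y ≠ c}).map Subtype.val)
      (c ::ₘ (P' : Multiset {y : κ // y ≠ c'}).map Subtype.val)
      (by rw [Multiset.card_cons, hcard]) (by rw [Multiset.card_cons, hcard])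
      (by
        rw [sg_cons, sg_cons]
        have h2 : sg b ((P : Multiset {y : κ // y ≠ c}).map Subtype.val)
          = sg b ((P' : Multiset {y : κ // y ≠ c'}).map Subtype.val) - b c' + b c := by
          rw [← h]; abel
        rw [h2]; abel)
    have hcc : c = c' := by
      by_contra hne
      have h2 : c ∈ c' ::ₘ (P : Multiset {y : κ // y ≠ c}).map Subtype.val := by
        rw [h1]; exact Multiset.mem_cons_self _ _
      rcases Multiset.mem_cons.mp h2 with h3 | h3
      · exact hne h3
      · exact hnot c P h3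
    subst hcc
    rw [Multiset.cons_inj_right] at h1
    have h2 := Multiset.map_injective Subtype.val_injective h1
    have h3 : P = P' := Subtype.ext h2
    rw [h3]
  · exact absurd h (hmix c P Q')
  · exact absurd h.symm (hmix c' P' Q)
  · simp only [Sum.elim_inr] at h
    have h1 := finj (o ::ₘ o ::ₘ (Q : Multiset κ)) (o ::ₘ o ::ₘ (Q' : Multiset κ))
      (by rw [Multiset.card_cons, Multiset.card_cons, show (Q : Multiset κ).card = k from Q.2])
      (by rw [Multiset.card_cons, Multiset.card_cons, show (Q' : Multiset κ).card = k from Q'.2])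
      (by rw [sg_cons, sg_cons, sg_cons, sg_cons, h])
    rw [Multiset.cons_inj_right, Multiset.cons_inj_right] at h1
    have h3 : Q = Q' := Subtype.ext h1
    rw [h3]

end

/-- **Main theorem.** No finite abelian group has a perfect `s`-basis of size `m` when
`s ≥ 2` and `m ≥ 2`. -/
theorem result (s m : ℕ) (hs : 2 ≤ s) (hm : 2 ≤ m) (G : Type*) [AddCommGroup G] [Fintype G]
    (hn : Fintype.card G = (m + s).choose s) (A : Finset G) (hA : A.card = m) :
    ¬ ∀ g : G, ∃ c : G → ℕ, ∑ a ∈ A, c a ≤ s ∧ ∑ a ∈ A, c a • a = g := by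
  classical
  intro hbasis
  obtain ⟨k, rfl⟩ : ∃ k, s = k + 2 := ⟨s - 2, by omega⟩
  have hκ : Fintype.card (Option {x // x ∈ A}) = m + 1 := by
    rw [Fintype.card_option, Fintype.card_coe, hA]
  set b : Option {x // x ∈ A} → G := fun o => o.elim 0 (fun a => a.1) with hb
  have hsurj : Function.Surjective
      (fun R : Sym (Option {x // x ∈ A}) (k+2) => sg b (R : Multiset (Option {x // x ∈ A}))) := by
    intro g
    obtain ⟨c, hc1, hc2⟩ := hbasis g
    set R0 : Multiset (Option {x // x ∈ A}) :=
      ∑ a ∈ A.attach, Multiset.replicate (c a.1) (some a) with hR0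
    have hcard0 : R0.card = ∑ a ∈ A, c a := by
      rw [hR0, Multiset.card_sum, ← Finset.sum_attach A]
      exact Finset.sum_congr rfl fun a _ => Multiset.card_replicate _ _
    have hsum0 : sg b R0 = g := by
      have h1 : ∀ T : Finset {x // x ∈ A},
          sg b (∑ a ∈ T, Multiset.replicate (c a.1) (some a)) = ∑ a ∈ T, c a.1 • a.1 := by
        intro T
        induction T using Finset.induction_on with
        | empty => simp [sg]
        | insert x T hx ih =>
          rw [Finset.sum_insert hx, Finset.sum_insert hx, sg_add, ih]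
          congr 1
          simp [sg, hb]
      rw [hR0, h1, Finset.sum_attach A (fun a => c a • a), hc2]
    refine ⟨⟨R0 + Multiset.replicate (k + 2 - ∑ a ∈ A, c a) none, ?_⟩, ?_⟩
    · rw [Multiset.card_add, Multiset.card_replicate, hcard0]; omega
    · change sg b (R0 + Multiset.replicate (k + 2 - ∑ a ∈ A, c a) none) = g
      rw [sg_add, hsum0]
      simp [sg, hb]
  have hcardS : Fintype.card (Sym (Option {x // x ∈ A}) (k+2)) = Fintype.card G := by
    rw [Sym.card_sym_eq_choose, hκ, hn]
    congr 1
    omega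
  have hbij := (Fintype.bijective_iff_surjective_and_card _).mpr ⟨hsurj, hcardS⟩
  have finj : ∀ R R' : Multiset (Option {x // x ∈ A}), R.card = k + 2 → R'.card = k + 2 →
      sg b R = sg b R' → R = R' := by
    intro R R' h1 h2 h3
    have := @hbij.1 ⟨R, h1⟩ ⟨R', h2⟩ h3
    exact congrArg Subtype.val this
  have hinj := psi_injective finj none
  have hle := Fintype.card_le_of_injective _ hinj
  rw [Fintype.card_sum, Fintype.card_sigma, Sym.card_sym_eq_choose, hκ, hn] at hle
  have hsum : ∑ c : Option {x // x ∈ A}, Fintype.card (Sym {x : Option {x // x ∈ A} // x ≠ c} (k+1))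
      = (m+1) * (m+k).choose (k+1) := by
    have h1 : ∀ c : Option {x // x ∈ A},
        Fintype.card (Sym {x : Option {x // x ∈ A} // x ≠ c} (k+1)) = (m+k).choose (k+1) := by
      intro c
      rw [Sym.card_sym_eq_choose]
      have h2 : Fintype.card {x : Option {x // x ∈ A} // x ≠ c} = m := by
        rw [Fintype.card_subtype_compl, hκ, Fintype.card_subtype_eq]
        rfl
      rw [h2]
      congr 1
    rw [Finset.sum_congr rfl fun c _ => h1 c, Finset.sum_const, Finset.card_univ, hκ, smul_eq_mul]
  rw [hsum] at hle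
  have e1 : m + 1 + k - 1 = m + k := by omega
  have e2 : (m + (k + 2)).choose (k+2) = (m+k).choose k + (m+k).choose (k+1)
      + ((m+k).choose (k+1) + (m+k).choose (k+2)) := by
    rw [show m + (k+2) = (m+k+1)+1 by ring, Nat.choose_succ_succ, Nat.choose_succ_succ,
      Nat.choose_succ_succ (m+k) (k+1)]
  rw [e1, e2] at hle
  have e3 := Nat.choose_succ_right_eq (m+k) (k+1)
  have e4 : m + k - (k+1) = m - 1 := by omega
  rw [e4] at e3
  obtain ⟨m', rfl⟩ : ∃ m', m = m' + 2 := ⟨m - 2, by omega⟩
  have e5 : m' + 2 - 1 = m' + 1 := rfl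
  rw [e5] at e3
  have e6 : 0 < (m' + 2 + k).choose (k+1) := Nat.choose_pos (by omega)
  have e7 : (k + 1 + 1) = k + 2 := rfl
  rw [e7] at e3
  have e8 : (m'+1) * (m' + 2 + k).choose (k+1) ≤ (m' + 2 + k).choose (k+2) := by
    nlinarith
  have e9 : 0 < (m'+1) * (m' + 2 + k).choose (k+1) := Nat.mul_pos (by omega) e6
  nlinarith

end Pool.Agent.Results.MP_acd90d_co.NoPerfectBasis
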